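import Pool.Agent.helper43.BMH.Spec

/-!
# Row bmh:HDN (MP_cef0b4_gt): Hadamard matrices and norms
-/

set_option autoImplicit false

namespace Pool.Agent.helper43.BMH

theorem HDN_tt {ι : Type} [Fintype ι] [DecidableEq ι] (T : Matrix ι ι ℝ) (h : IsHad T) :
    T.transpose * T = (Fintype.card ι : ℝ) • (1 : Matrix ι ι ℝ) := by
  rcases isEmpty_or_nonempty ι with he | hne
  · exact Subsingleton.elim _ _
  · have hn : (Fintype.card ι : ℝ) ≠ 0 := Nat.cast_ne_zero.2 Fintype.card_ne_zero
    have h1 : T * ((Fintype.card ι : ℝ)⁻¹ • T.transpose) = 1 := by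
      rw [Matrix.mul_smul, h.2, smul_smul, inv_mul_cancel₀ hn, one_smul]
    have h2 := mul_eq_one_comm.1 h1
    rw [Matrix.smul_mul] at h2
    calc T.transpose * T
        = (Fintype.card ι : ℝ) • ((Fintype.card ι : ℝ)⁻¹ • (T.transpose * T)) := by
          rw [smul_smul, mul_inv_cancel₀ hn, one_smul]
      _ = _ := by rw [h2]

theorem t_hdn : HDN := by
  intro ι _ _ T hT
  have h1 := HDN_tt T hT
  refine ⟨h1, ⟨fun i j => hT.1 j i, ?_⟩, fun v => ?_⟩
  · rw [Matrix.transpose_transpose]
    exact h1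
  · have h2 : ∑ i, (T.mulVec v i) ^ 2 = dotProduct (T.mulVec v) (T.mulVec v) := by
      unfold dotProduct
      exact Finset.sum_congr rfl fun i _ => pow_two _
    have h3 : ∑ i, (v i) ^ 2 = dotProduct v v := by
      unfold dotProduct
      exact Finset.sum_congr rfl fun i _ => pow_two _
    rw [h2, h3, Matrix.dotProduct_mulVec, ← Matrix.mulVec_transpose, Matrix.mulVec_mulVec, h1,
      Matrix.smul_mulVec, Matrix.one_mulVec, smul_dotProduct, smul_eq_mul]

end Pool.Agent.helper43.BMH
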