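import Pool.Agent.helper43.BMH.Spec

/-!
# Row bmh:RTS (MP_cef0b4_gt): averages of roots of unity
-/

set_option autoImplicit false

namespace Pool.Agent.helper43.BMH

theorem RTS_ne (r : ℕ) (x : ℤ) (hx : |x| < 2 ^ r) (h0 : x ≠ 0) :
    Complex.exp ((2 * Real.pi / 2 ^ r * (x : ℝ) : ℝ) * Complex.I) ≠ 1 := by
  intro h
  obtain ⟨m, hm⟩ := Complex.exp_eq_one_iff.1 h
  have h1 : ((2 * Real.pi / 2 ^ r * (x : ℝ) : ℝ) : ℂ) * Complex.I
      = ((m : ℝ) * (2 * Real.pi) : ℝ) * Complex.I := by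
    rw [hm]
    push_cast
    ring
  have h2 := mul_right_cancel₀ Complex.I_ne_zero h1
  have h3 : 2 * Real.pi / 2 ^ r * (x : ℝ) = (m : ℝ) * (2 * Real.pi) := by exact_mod_cast h2
  have hpi : (2 * Real.pi) ≠ 0 := by positivity
  have h4 : (x : ℝ) = (m : ℝ) * 2 ^ r := by
    have h5 : (2 * Real.pi) * ((x : ℝ) - (m : ℝ) * 2 ^ r) = 0 := by
      have h6 : (2 * Real.pi) * (x : ℝ) = (2 * Real.pi / 2 ^ r * (x : ℝ)) * 2 ^ r := by
        field_simp
      rw [mul_sub, h6, h3]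
      ring
    rcases mul_eq_zero.1 h5 with h | h
    · exact absurd h hpi
    · linarith
  have h5 : x = m * 2 ^ r := by exact_mod_cast h4
  have hm0 : m ≠ 0 := by
    rintro rfl
    exact h0 (by rw [h5, zero_mul])
  have h6 : (1 : ℤ) ≤ |m| := Int.one_le_abs hm0
  have h7 : |x| = |m| * 2 ^ r := by
    rw [h5, abs_mul, abs_of_pos (by positivity : (0 : ℤ) < 2 ^ r)]
  have h8 : (2 : ℤ) ^ r ≤ |x| := by
    rw [h7]
    exact le_mul_of_one_le_left (by positivity) h6
  exact absurd hx (not_lt.2 h8)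

theorem t_rts : RTS := by
  intro r x hx
  by_cases h0 : x = 0
  · rw [if_pos h0, h0]
    simp
  · rw [if_neg h0]
    set θ : ℝ := 2 * Real.pi / 2 ^ r * (x : ℝ) with hθ
    have h1 : ∀ j : ℕ, Real.cos (2 * Real.pi * j / 2 ^ r * (x : ℝ))
        = (Complex.exp ((θ : ℝ) * Complex.I) ^ j).re := by
      intro j
      have h2 : Complex.exp ((θ : ℝ) * Complex.I) ^ j
          = Complex.exp (((j : ℝ) * θ : ℝ) * Complex.I) := by
        rw [← Complex.exp_nat_mul]
        push_cast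
        ring_nf
      rw [h2, Complex.exp_ofReal_mul_I_re, hθ]
      ring_nf
    have h3 : ∑ j ∈ Finset.range (2 ^ r), Complex.exp ((θ : ℝ) * Complex.I) ^ j = 0 := by
      rw [geom_sum_eq (RTS_ne r x hx h0)]
      have h4 : Complex.exp ((θ : ℝ) * Complex.I) ^ (2 ^ r) = 1 := by
        rw [← Complex.exp_nat_mul, Complex.exp_eq_one_iff]
        refine ⟨x, ?_⟩
        rw [hθ]
        push_cast
        field_simp
      rw [h4, sub_self, zero_div]
    rw [Finset.sum_congr rfl fun j _ => h1 j, ← Complex.re_sum, h3, Complex.zero_re]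

end Pool.Agent.helper43.BMH
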